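import Pool.Agent.W422.GC.Stms
import Pool.Agent.W655.SM.C3

set_option autoImplicit false

/-! Part CELL of the generic coefficient project: the value of the limit. -/

namespace Pool.Agent.W64.GC

open MvPolynomial Pool.Agent.H628R4.TZ Pool.Agent.H628R4.TP Pool.Agent.W425.SM
open Pool.Agent.W422.GC Pool.Agent.W655.SM
open MeasureTheory Set Filter Topology

variable {r N : ℕ}

lemma inAff_mem (v : Fin r → Fin N → ℕ) {J : Finset (Fin r)} {j : Fin r} (hj : j ∈ J) :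
    InAff v J j := by
  classical
  refine ⟨Pi.single j 1, fun l hl => ?_, ?_, fun i => ?_⟩
  · rw [Pi.single_eq_of_ne]
    rintro rfl
    exact hl hj
  · rw [Finset.sum_pi_single']
    simp
  · rw [Finset.sum_eq_single j]
    · simp
    · intro b _ hb
      rw [Pi.single_eq_of_ne hb, zero_mul]
    · intro h
      exact absurd (Finset.mem_univ _) h

/-- the form `y_j` is the affine combination of the forms `y_l` -/
lemma inAff_ymap (v : Fin r → Fin N → ℕ) {J : Finset (Fin r)} {j : Fin r} (x : Fin (N+1) → ℝ)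
    (hx : ∀ l ∈ J, ymap v x l = 0) (h : InAff v J j) : ymap v x j = 0 := by
  obtain ⟨c, hc, h1, hv⟩ := h
  have h2 : ymap v x j = ∑ l, c l * ymap v x l := by
    unfold ymap
    simp only [mul_sub, Finset.sum_sub_distrib]
    rw [← Finset.sum_mul, h1, one_mul]
    congr 1
    simp only [Finset.mul_sum]
    rw [Finset.sum_comm]
    refine Finset.sum_congr rfl fun i _ => ?_
    rw [← hv i, Finset.sum_mul]
    exact Finset.sum_congr rfl fun l _ => by ring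
  rw [h2]
  refine Finset.sum_eq_zero fun l _ => ?_
  by_cases hl : l ∈ J
  · rw [hx l hl, mul_zero]
  · rw [hc l hl, zero_mul]

lemma mem_min_iff (v : Fin r → Fin N → ℕ) (σ : Finset (Fin N → ℕ)) (j : Fin r) :
    j ∈ minSet v σ ↔ ∀ ρ ∈ σ, ymap v (rhoHat v ρ) j = 0 := by
  rw [minSet, Finset.mem_filter]
  constructor
  · rintro ⟨-, h⟩ ρ hρ
    rw [ymap_rhoHat, h ρ hρ, sub_self]
  · intro h
    refine ⟨Finset.mem_univ j, fun ρ hρ => ?_⟩
    have h1 := h ρ hρ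
    rw [ymap_rhoHat, sub_eq_zero] at h1
    exact_mod_cast h1

lemma hull_le (v : Fin r → Fin N → ℕ) {J : Finset (Fin r)} (σ : Finset (Fin N → ℕ))
    (hJ : J ⊆ minSet v σ) (j : Fin r) (h : InAff v J j) : j ∈ minSet v σ := by
  rw [mem_min_iff]
  intro ρ hρ
  refine inAff_ymap v _ (fun l hl => ?_) h
  exact (mem_min_iff v σ l).1 (hJ hl) ρ hρ

lemma ar_spec' (v : Fin r → Fin N → ℕ) {J : Finset (Fin r)} {d : ℕ}
    (Θ : ((J → ℝ) × (Fin d → ℝ)) ≃ₗ[ℝ] (Fin (N+1) → ℝ)) {θ : ℝ} (hA : Adapt v J d Θ θ)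
    (σ : Finset (Fin N → ℕ)) (hJ : J ⊆ minSet v σ) (ρ : Fin N → ℕ) (hρ : ρ ∈ σ) :
    Θ (0, ar v Θ ρ) = rhoHat v ρ := by
  have h1 : Θ.symm (rhoHat v ρ) = (0, ar v Θ ρ) := by
    refine Prod.ext ?_ rfl
    funext j
    have h2 := hA.y (Θ.symm (rhoHat v ρ)).1 (Θ.symm (rhoHat v ρ)).2 j
    have h3 : Θ ((Θ.symm (rhoHat v ρ)).1, (Θ.symm (rhoHat v ρ)).2) = rhoHat v ρ :=
      Θ.apply_symm_apply _
    rw [h3, (mem_min_iff v σ j).1 (hJ j.2) ρ hρ] at h2
    rw [← h2]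
    simp
  rw [← h1, Θ.apply_symm_apply]

lemma cL_Θ' (v : Fin r → Fin N → ℕ) {J : Finset (Fin r)} {d : ℕ}
    (Θ : ((J → ℝ) × (Fin d → ℝ)) ≃ₗ[ℝ] (Fin (N+1) → ℝ)) {θ : ℝ} (hA : Adapt v J d Θ θ)
    (σ : Finset (Fin N → ℕ)) (hJ : J ⊆ minSet v σ) (c : σ → ℝ) :
    Θ (0, cL v Θ σ c) = ∑ ρ : σ, c ρ • rhoHat v ρ := by
  have h1 : ((0 : J → ℝ), cL v Θ σ c) = ∑ ρ : σ, c ρ • ((0 : J → ℝ), ar v Θ (ρ : Fin N → ℕ)) := by
    refine Prod.ext ?_ ?_
    · simp [Prod.fst_sum]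
    · rw [Prod.snd_sum, cL_apply]
      exact Finset.sum_congr rfl fun ρ _ => rfl
  rw [h1, map_sum]
  refine Finset.sum_congr rfl fun ρ _ => ?_
  rw [map_smul, ar_spec' v Θ hA σ hJ ρ ρ.2]

lemma ar_li' (v : Fin r → Fin N → ℕ) (R : SmoothFan N) {J : Finset (Fin r)} {d : ℕ}
    (Θ : ((J → ℝ) × (Fin d → ℝ)) ≃ₗ[ℝ] (Fin (N+1) → ℝ)) {θ : ℝ} (hA : Adapt v J d Θ θ)
    (σ : Finset (Fin N → ℕ)) (hσ : σ ∈ R.cones) (hJ : J ⊆ minSet v σ) :
    LinearIndependent ℝ (fun ρ : σ => ar v Θ (ρ : Fin N → ℕ)) := by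
  let T : (Fin d → ℝ) →ₗ[ℝ] (Fin N → ℝ) :=
    (LinearMap.funLeft ℝ ℝ Fin.succ) ∘ₗ Θ.toLinearMap ∘ₗ (LinearMap.inr ℝ (J → ℝ) (Fin d → ℝ))
  refine LinearIndependent.of_comp T ?_
  have h1 : (T ∘ fun ρ : σ => ar v Θ (ρ : Fin N → ℕ)) =
      (fun ρ : σ => (fun l => ((ρ : Fin N → ℕ) l : ℝ) : Fin N → ℝ)) := by
    funext ρ l
    show Θ (0, ar v Θ (ρ : Fin N → ℕ)) (Fin.succ l) = _
    rw [ar_spec' v Θ hA σ hJ ρ ρ.2]
    simp [rhoHat]
  rw [h1]
  exact cone_li R σ hσ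

lemma card_le' (v : Fin r → Fin N → ℕ) (R : SmoothFan N) {J : Finset (Fin r)} {d : ℕ}
    (Θ : ((J → ℝ) × (Fin d → ℝ)) ≃ₗ[ℝ] (Fin (N+1) → ℝ)) {θ : ℝ} (hA : Adapt v J d Θ θ)
    (σ : Finset (Fin N → ℕ)) (hσ : σ ∈ R.cones) (hJ : J ⊆ minSet v σ) : σ.card ≤ d := by
  have h := (ar_li' v R Θ hA σ hσ hJ).fintype_card_le_finrank
  simpa using h

lemma cL_inj' (v : Fin r → Fin N → ℕ) (R : SmoothFan N) {J : Finset (Fin r)} {d : ℕ}
    (Θ : ((J → ℝ) × (Fin d → ℝ)) ≃ₗ[ℝ] (Fin (N+1) → ℝ)) {θ : ℝ} (hA : Adapt v J d Θ θ)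
    (σ : Finset (Fin N → ℕ)) (hσ : σ ∈ R.cones) (hJ : J ⊆ minSet v σ) :
    Function.Injective (cL v Θ σ) :=
  (ar_li' v R Θ hA σ hσ hJ).fintypeLinearCombination_injective

lemma reg_eq' (v : Fin r → Fin N → ℕ) {J : Finset (Fin r)} {d : ℕ}
    (Θ : ((J → ℝ) × (Fin d → ℝ)) ≃ₗ[ℝ] (Fin (N+1) → ℝ)) {θ : ℝ} (hA : Adapt v J d Θ θ)
    (σ : Finset (Fin N → ℕ)) (hJ : J ⊆ minSet v σ) :
    reg v Θ σ = cL v Θ σ '' {c | ∀ ρ, 0 < c ρ} := by
  classical
  ext a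
  constructor
  · rintro ⟨c, hc, h⟩
    refine ⟨fun ρ => c ρ, fun ρ => hc ρ ρ.2, ?_⟩
    have h1 : Θ (0, a) = Θ (0, cL v Θ σ (fun ρ => c ρ)) := by
      rw [cL_Θ' v Θ hA σ hJ, h]
      exact (Finset.sum_coe_sort σ (fun ρ => c ρ • rhoHat v ρ)).symm
    have h2 := Θ.injective h1
    exact (congrArg Prod.snd h2).symm
  · rintro ⟨c, hc, rfl⟩
    refine ⟨fun ρ => if h : ρ ∈ σ then c ⟨ρ, h⟩ else 0,
      fun ρ hρ => by simp only [hρ, dif_pos]; exact hc _, ?_⟩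
    rw [cL_Θ' v Θ hA σ hJ]
    rw [← Finset.sum_coe_sort σ]
    refine Finset.sum_congr rfl fun ρ _ => ?_
    simp

lemma reg_meas' (v : Fin r → Fin N → ℕ) (R : SmoothFan N) {J : Finset (Fin r)} {d : ℕ}
    (Θ : ((J → ℝ) × (Fin d → ℝ)) ≃ₗ[ℝ] (Fin (N+1) → ℝ)) {θ : ℝ} (hA : Adapt v J d Θ θ)
    (σ : Finset (Fin N → ℕ)) (hσ : σ ∈ R.cones) (hJ : J ⊆ minSet v σ) :
    MeasurableSet (reg v Θ σ) := by
  rw [reg_eq' v Θ hA σ hJ]
  exact (pos_meas σ).image_of_continuousOn_injOn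
    (LinearMap.continuous_of_finiteDimensional _).continuousOn (cL_inj' v R Θ hA σ hσ hJ).injOn

lemma reg_null' (v : Fin r → Fin N → ℕ) {J : Finset (Fin r)} {d : ℕ}
    (Θ : ((J → ℝ) × (Fin d → ℝ)) ≃ₗ[ℝ] (Fin (N+1) → ℝ)) {θ : ℝ} (hA : Adapt v J d Θ θ)
    (σ : Finset (Fin N → ℕ)) (hJ : J ⊆ minSet v σ) (hd : σ.card < d) :
    volume (reg v Θ σ) = 0 := by
  rw [reg_eq' v Θ hA σ hJ]
  have h1 : LinearMap.range (cL v Θ σ) ≠ ⊤ := by
    intro h
    have h2 := LinearMap.finrank_range_le (cL v Θ σ)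
    rw [h, finrank_top] at h2
    simp at h2
    omega
  refine measure_mono_null ?_ (Measure.addHaar_submodule volume _ h1)
  rintro _ ⟨c, _, rfl⟩
  exact ⟨c, rfl⟩

/-- the linear form `y_j` -/
noncomputable def yform (v : Fin r → Fin N → ℕ) (j : Fin r) : (Fin (N+1) → ℝ) →ₗ[ℝ] ℝ where
  toFun x := ymap v x j
  map_add' x y := by
    unfold ymap
    simp only [Pi.add_apply, mul_add, Finset.sum_add_distrib]
    ring
  map_smul' c x := by
    unfold ymap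
    simp only [Pi.smul_apply, smul_eq_mul, RingHom.id_apply, mul_sub, Finset.mul_sum]
    congr 1
    exact Finset.sum_congr rfl fun i _ => by ring

/-- for cones of the right dimension the initial part is contained in the affine hull -/
lemma hull_ge (v : Fin r → Fin N → ℕ) (R : SmoothFan N) {J : Finset (Fin r)} {d : ℕ}
    (Θ : ((J → ℝ) × (Fin d → ℝ)) ≃ₗ[ℝ] (Fin (N+1) → ℝ)) {θ : ℝ} (hA : Adapt v J d Θ θ)
    (σ : Finset (Fin N → ℕ)) (hσ : σ ∈ R.cones) (hJ : J ⊆ minSet v σ) (hd : σ.card = d)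
    (j : Fin r) (hj : j ∈ minSet v σ) : InAff v J j := by
  classical
  -- the form vanishes on the kernel
  have hker : ∀ a : Fin d → ℝ, ymap v (Θ (0, a)) j = 0 := by
    intro a
    have hsurj : Function.Surjective (cL v Θ σ) := by
      refine (LinearMap.injective_iff_surjective_of_finrank_eq_finrank ?_).1
        (cL_inj' v R Θ hA σ hσ hJ)
      simp [hd]
    obtain ⟨c, rfl⟩ := hsurj a
    rw [cL_Θ' v Θ hA σ hJ]
    show yform v j _ = 0
    rw [map_sum]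
    refine Finset.sum_eq_zero fun ρ _ => ?_
    rw [map_smul]
    show c ρ • ymap v (rhoHat v (ρ : Fin N → ℕ)) j = 0
    rw [(mem_min_iff v σ j).1 hj ρ ρ.2, smul_zero]
  let c : J → ℝ := fun l => ymap v (Θ (Pi.single l 1, 0)) j
  have hform : ∀ x : Fin (N+1) → ℝ, ymap v x j = ∑ l : J, c l * ymap v x l := by
    intro x
    obtain ⟨⟨z, a⟩, rfl⟩ := Θ.surjective x
    have h1 : Θ (z, a) = Θ (z, 0) + Θ (0, a) := by
      rw [← map_add]
      simp
    have h2 : Θ (z, 0) = ∑ l : J, z l • Θ (Pi.single l 1, 0) := by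
      have h3 : ((z, 0) : (J → ℝ) × (Fin d → ℝ)) =
          ∑ l : J, z l • ((Pi.single l 1 : J → ℝ), (0 : Fin d → ℝ)) := by
        refine Prod.ext ?_ ?_
        · rw [Prod.fst_sum]
          funext l
          simp [Finset.sum_apply, Pi.single_apply]
        · rw [Prod.snd_sum]
          simp
      rw [h3, map_sum]
      exact Finset.sum_congr rfl fun l _ => by rw [map_smul]
    have h4 : ymap v (Θ (z, a)) j = ∑ l : J, z l * c l := by
      have h5 : ymap v (Θ (z, a)) j = yform v j (Θ (z, a)) := rfl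
      rw [h5, h1, map_add]
      have h6 : yform v j (Θ (0, a)) = 0 := hker a
      rw [h6, add_zero, h2, map_sum]
      exact Finset.sum_congr rfl fun l _ => by rw [map_smul]; rfl
    rw [h4]
    refine Finset.sum_congr rfl fun l _ => ?_
    rw [hA.y z a l, mul_comm]
  have hext : ∀ g : Fin r → ℝ, ∑ l, (if h : l ∈ J then c ⟨l, h⟩ else 0) * g l =
      ∑ l : J, c l * g l := by
    intro g
    rw [← Finset.sum_subset (Finset.subset_univ J)]
    · rw [← Finset.sum_coe_sort J]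
      refine Finset.sum_congr rfl fun l _ => ?_
      simp
    · intro l _ hl
      simp [hl]
  refine ⟨fun l => if h : l ∈ J then c ⟨l, h⟩ else 0, fun l hl => by simp [hl], ?_, fun i => ?_⟩
  · have h1 := hform (Pi.single 0 1)
    have h2 : ∀ l : Fin r, ymap v (Pi.single 0 1) l = -1 := by
      intro l
      unfold ymap
      rw [Finset.sum_eq_zero]
      · simp
      · intro i _
        rw [Pi.single_eq_of_ne (Fin.succ_ne_zero i), mul_zero]
    rw [h2 j] at h1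
    simp only [h2] at h1
    have h3 := hext (fun _ => 1)
    simp only [mul_one] at h3
    rw [h3]
    rw [← Finset.sum_mul] at h1
    linarith
  · have h1 := hform (Pi.single i.succ 1)
    have h2 : ∀ l : Fin r, ymap v (Pi.single i.succ 1) l = (v l i : ℝ) := by
      intro l
      unfold ymap
      rw [Finset.sum_eq_single i]
      · simp
      · intro b _ hb
        rw [Pi.single_eq_of_ne (fun h => hb (Fin.succ_injective _ h)), mul_zero]
      · intro h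
        exact absurd (Finset.mem_univ _) h
    rw [h2 j] at h1
    simp only [h2] at h1
    rw [hext (fun l => (v l i : ℝ)), h1]

/-- the condition of `limGU` -/
def CondU (v : Fin r → Fin N → ℕ) (α : ℝ) (J : Finset (Fin r)) (x : Fin (N+1) → ℝ) : Prop :=
  0 < x 0 ∧ (∀ i : Fin N, 0 < x i.succ ∨ (0 < α ∧ x i.succ = 0)) ∧
    (∀ j ∉ J, ¬ InAff v J j → 0 < ymap v x j)

/-- the cones which contribute -/
def PCU (v : Fin r → Fin N → ℕ) (α : ℝ) (J : Finset (Fin r)) (σ : Finset (Fin N → ℕ)) : Prop :=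
  (∀ j, j ∈ minSet v σ ↔ InAff v J j) ∧ Inc α σ ∧ ∃ ρ ∈ σ, ordAlong v ρ ≠ 0

lemma PCU.sub {v : Fin r → Fin N → ℕ} {α : ℝ} {J : Finset (Fin r)} {σ : Finset (Fin N → ℕ)}
    (h : PCU v α J σ) : J ⊆ minSet v σ := fun j hj => (h.1 j).2 (inAff_mem v hj)

lemma cond_of_regU (v : Fin r → Fin N → ℕ) {J : Finset (Fin r)} {d : ℕ}
    (Θ : ((J → ℝ) × (Fin d → ℝ)) ≃ₗ[ℝ] (Fin (N+1) → ℝ)) (α : ℝ)
    (σ : Finset (Fin N → ℕ)) (hP : PCU v α J σ) (a : Fin d → ℝ) (ha : a ∈ reg v Θ σ) :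
    CondU v α J (Θ (0, a)) := by
  obtain ⟨c, hc, h0, h⟩ := reg_coord v Θ σ a ha
  obtain ⟨hJ, hI, ρ0, hρ0, ho⟩ := hP
  refine ⟨?_, fun i => ?_, fun j hj0 hj => ?_⟩
  · rw [h0]
    refine Finset.sum_pos' (fun ρ hρ => mul_nonneg (hc ρ hρ).le (Nat.cast_nonneg _)) ⟨ρ0, hρ0, ?_⟩
    exact mul_pos (hc ρ0 hρ0) (by exact_mod_cast Nat.pos_of_ne_zero ho)
  · have h1 : 0 ≤ Θ (0, a) i.succ := by
      rw [h]
      exact Finset.sum_nonneg fun ρ hρ => mul_nonneg (hc ρ hρ).le (Nat.cast_nonneg _)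
    rcases hI with hα | hI
    · rcases h1.lt_or_eq with h2 | h2
      · exact Or.inl h2
      · exact Or.inr ⟨hα, h2.symm⟩
    · left
      obtain ⟨ρ1, hρ1, h3⟩ := hI i
      rw [h]
      refine Finset.sum_pos' (fun ρ hρ => mul_nonneg (hc ρ hρ).le (Nat.cast_nonneg _)) ⟨ρ1, hρ1, ?_⟩
      exact mul_pos (hc ρ1 hρ1) (by exact_mod_cast Nat.pos_of_ne_zero h3)
  · unfold ymap
    rw [sum_form v σ c (fun l => Θ (0, a) l.succ) h j, h0, ← Finset.sum_sub_distrib]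
    rw [← hJ j, minSet, Finset.mem_filter] at hj
    push Not at hj
    obtain ⟨ρ1, hρ1, h3⟩ := hj (Finset.mem_univ j)
    refine Finset.sum_pos' (fun ρ hρ => ?_) ⟨ρ1, hρ1, ?_⟩
    · rw [← mul_sub]
      refine mul_nonneg (hc ρ hρ).le (sub_nonneg.2 ?_)
      exact_mod_cast ord_le v ρ j
    · rw [← mul_sub]
      refine mul_pos (hc ρ1 hρ1) (sub_pos.2 ?_)
      exact_mod_cast lt_of_le_of_ne (ord_le v ρ1 j) (Ne.symm h3)

lemma reg_of_condU [NeZero r] (v : Fin r → Fin N → ℕ) (R : SmoothFan N) (hPr : Principal v R)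
    {J : Finset (Fin r)} (hJ : J.Nonempty) {d : ℕ}
    (Θ : ((J → ℝ) × (Fin d → ℝ)) ≃ₗ[ℝ] (Fin (N+1) → ℝ)) {θ : ℝ} (hA : Adapt v J d Θ θ) (α : ℝ)
    (a : Fin d → ℝ) (h : CondU v α J (Θ (0, a))) :
    ∃ σ ∈ R.cones, PCU v α J σ ∧ a ∈ reg v Θ σ := by
  obtain ⟨h0, h1, h2⟩ := h
  have hnn : ∀ l : Fin N, 0 ≤ Θ (0, a) l.succ := by
    intro l
    rcases h1 l with h | h
    · exact h.le
    · exact h.2.symm.le
  obtain ⟨σ, ⟨hσ, y, hy, hw⟩, -⟩ := R.partition (fun l => Θ (0, a) l.succ) hnn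
  obtain ⟨j1, hj1⟩ := hPr σ hσ
  have hord : ∀ ρ ∈ σ, ordAlong v ρ = ∑ l, ρ l * v j1 l := fun ρ hρ => ord_eq ρ j1 (hj1 ρ hρ)
  have hf := sum_form v σ y (fun l => Θ (0, a) l.succ) hw
  have hge : ∀ j, ∑ ρ ∈ σ, y ρ * (ordAlong v ρ : ℝ) ≤ ∑ i, (v j i : ℝ) * Θ (0, a) i.succ := by
    intro j
    rw [hf j]
    refine Finset.sum_le_sum fun ρ hρ => mul_le_mul_of_nonneg_left ?_ (hy ρ hρ).le
    exact_mod_cast ord_le v ρ j
  have heq : ∀ j, j ∈ minSet v σ ↔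
      ∑ i, (v j i : ℝ) * Θ (0, a) i.succ = ∑ ρ ∈ σ, y ρ * (ordAlong v ρ : ℝ) := by
    intro j
    rw [hf j, minSet, Finset.mem_filter]
    constructor
    · rintro ⟨-, h⟩
      exact Finset.sum_congr rfl fun ρ hρ => by rw [h ρ hρ]
    · intro h
      refine ⟨Finset.mem_univ j, fun ρ hρ => ?_⟩
      have h3 : ∑ ρ ∈ σ, y ρ * (((∑ l, ρ l * v j l : ℕ) : ℝ) - (ordAlong v ρ : ℝ)) = 0 := by
        simp only [mul_sub, Finset.sum_sub_distrib]
        rw [h, sub_self]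
      have h4 := (Finset.sum_eq_zero_iff_of_nonneg (fun ρ hρ => mul_nonneg (hy ρ hρ).le
        (sub_nonneg.2 (by exact_mod_cast ord_le v ρ j)))).1 h3 ρ hρ
      rcases mul_eq_zero.1 h4 with h5 | h5
      · exact absurd h5 (hy ρ hρ).ne'
      · have h6 := sub_eq_zero.1 h5
        exact_mod_cast h6
  have hx0 : ∀ j, InAff v J j → ∑ i, (v j i : ℝ) * Θ (0, a) i.succ = Θ (0, a) 0 := by
    intro j hj
    have h3 : ymap v (Θ (0, a)) j = 0 := by
      refine inAff_ymap v _ (fun l hl => ?_) hj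
      have h4 := hA.y 0 a ⟨l, hl⟩
      simpa using h4
    unfold ymap at h3
    linarith
  have hx1 : ∀ j, ¬ InAff v J j → Θ (0, a) 0 < ∑ i, (v j i : ℝ) * Θ (0, a) i.succ := by
    intro j hj
    have h3 := h2 j (fun hj' => hj (inAff_mem v hj')) hj
    unfold ymap at h3
    linarith
  have hm1 : j1 ∈ minSet v σ := by
    rw [minSet, Finset.mem_filter]
    exact ⟨Finset.mem_univ _, fun ρ hρ => (hord ρ hρ).symm⟩
  have hm : Θ (0, a) 0 = ∑ ρ ∈ σ, y ρ * (ordAlong v ρ : ℝ) := by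
    refine le_antisymm ?_ ?_
    · rw [← (heq j1).1 hm1]
      by_cases hj : InAff v J j1
      · exact (hx0 j1 hj).symm.le
      · exact (hx1 j1 hj).le
    · obtain ⟨j2, hj2⟩ := hJ
      rw [← hx0 j2 (inAff_mem v hj2)]
      exact hge j2
  refine ⟨σ, hσ, ⟨?_, ?_, ?_⟩, y, hy, ?_⟩
  · intro j
    rw [heq j, ← hm]
    constructor
    · intro h
      by_contra hj
      exact absurd h (hx1 j hj).ne'
    · exact hx0 j
  · by_cases hα : 0 < α
    · exact Or.inl hα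
    · refine Or.inr fun l => ?_
      by_contra hcon
      push Not at hcon
      have h3 : Θ (0, a) l.succ = 0 := by
        have h4 : Θ (0, a) l.succ = ∑ ρ ∈ σ, y ρ * (ρ l : ℝ) := hw l
        rw [h4]
        exact Finset.sum_eq_zero fun ρ hρ => by rw [hcon ρ hρ]; simp
      rcases h1 l with h | h
      · exact absurd h3 h.ne'
      · exact hα h.1
  · by_contra hcon
    push Not at hcon
    have h3 : Θ (0, a) 0 = 0 := by
      rw [hm]
      exact Finset.sum_eq_zero fun ρ hρ => by rw [hcon ρ hρ]; simp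
    exact absurd h3 h0.ne'
  · funext i
    refine Fin.cases ?_ (fun l => ?_) i
    · rw [hm]; simp [rhoHat]
    · have h4 : Θ (0, a) l.succ = ∑ ρ ∈ σ, y ρ * (ρ l : ℝ) := hw l
      rw [h4]; simp [rhoHat]

open Classical in
lemma limGU_eq [NeZero r] (v : Fin r → Fin N → ℕ) (R : SmoothFan N) (hPr : Principal v R)
    (u : Fin r → ℝ) {J : Finset (Fin r)} (hL : Low v u J) (hJ : J.Nonempty) {d : ℕ}
    (Θ : ((J → ℝ) × (Fin d → ℝ)) ≃ₗ[ℝ] (Fin (N+1) → ℝ)) {θ : ℝ} (hA : Adapt v J d Θ θ) (α s : ℝ)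
    (a : Fin d → ℝ) : limGU v u α s J (Θ (0, a)) =
      ∑ σ ∈ R.cones.filter (PCU v α J),
        (reg v Θ σ).indicator (fun a => wt (lm (N := N) s) (Θ (0, a))) a := by
  have h0 : limGU v u α s J (Θ (0, a)) =
      if CondU v α J (Θ (0, a)) then wt (lm (N := N) s) (Θ (0, a)) else 0 := by
    unfold limGU
    exact if_congr (by rw [and_iff_right hL]; exact Iff.rfl) rfl rfl
  rw [h0]
  split_ifs with h
  · obtain ⟨σ, hσ, hP, ha⟩ := reg_of_condU v R hPr hJ Θ hA α a h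
    rw [Finset.sum_eq_single_of_mem σ (Finset.mem_filter.2 ⟨hσ, hP⟩), Set.indicator_of_mem ha]
    intro σ' hσ' hne
    rw [Set.indicator_of_notMem]
    intro ha'
    exact hne (reg_disj v R Θ σ' σ (Finset.mem_filter.1 hσ').1 hσ a ha' ha)
  · symm
    refine Finset.sum_eq_zero fun σ hσ => ?_
    rw [Set.indicator_of_notMem]
    intro ha
    exact h (cond_of_regU v Θ α σ (Finset.mem_filter.1 hσ).2 a ha)

theorem main : S_CELL := by
  classical
  intro r N _ v R hPr u α s hα hs J hJ hidx d Θ θ hA hF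
  by_cases hL : Low v u J
  swap
  · have h1 : ∀ a : Fin d → ℝ, limGU v u α s J (Θ (0, a)) = 0 := by
      intro a
      unfold limGU
      rw [if_neg (fun h => hL h.1)]
    simp only [h1]
    unfold limU
    rw [if_neg hL]
    simp
  have hdim := hA.dim
  have hidx' : (idx v J : ℂ) ≠ 0 := by exact_mod_cast hidx
  have hval : ∀ σ ∈ R.cones, J ⊆ minSet v σ → σ.card + J.card = N + 1 →
      (θ : ℂ) * ∫ a in reg v Θ σ, wt (lm (N := N) s) (Θ (0, a)) =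
      (idx v J : ℂ)⁻¹ * ∏ ρ ∈ σ, ((ordAlong v ρ : ℂ) * s + ((∑ l, ρ l : ℕ) : ℂ))⁻¹ := by
    intro σ hσ h1 h2
    have h3 := hF σ hσ h1 h2 (wt (lm (N := N) s))
    rw [cone_val v R s hs σ hσ] at h3
    rw [← h3]
    field_simp
  have hint : ∀ σ ∈ R.cones.filter (PCU v α J), Integrable
      ((reg v Θ σ).indicator (fun a => wt (lm (N := N) s) (Θ (0, a)))) := by
    intro σ hσ
    obtain ⟨hσ, hP⟩ := Finset.mem_filter.1 hσ
    rw [integrable_indicator_iff (reg_meas' v R Θ hA σ hσ hP.sub)]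
    have hle := card_le' v R Θ hA σ hσ hP.sub
    rcases hle.lt_or_eq with hlt | heq
    · rw [IntegrableOn, Measure.restrict_eq_zero.2 (reg_null' v Θ hA σ hP.sub hlt)]
      exact integrable_zero_measure
    · by_contra hcon
      have h3 := hval σ hσ hP.sub (by omega)
      rw [integral_undef hcon, mul_zero] at h3
      have h4 : (idx v J : ℂ)⁻¹ * ∏ ρ ∈ σ, ((ordAlong v ρ : ℂ) * s + ((∑ l, ρ l : ℕ) : ℂ))⁻¹ ≠ 0 := by
        refine mul_ne_zero (inv_ne_zero hidx') (Finset.prod_ne_zero_iff.2 fun ρ hρ => inv_ne_zero ?_)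
        have h5 : (ordAlong v ρ : ℂ) * s + ((∑ l, ρ l : ℕ) : ℂ) = ((kp v s ρ : ℝ) : ℂ) := by
          unfold kp; push_cast; rfl
        rw [h5]
        exact_mod_cast (kp_pos v R s hs σ hσ ρ hρ).ne'
      exact h4 h3.symm
  simp only [limGU_eq v R hPr u hL hJ Θ hA α s]
  rw [integral_finsetSum _ hint, Finset.mul_sum, Finset.sum_filter]
  unfold limU
  rw [if_pos hL]
  refine Finset.sum_congr rfl fun σ hσ => ?_
  by_cases hP : PCU v α J σ
  · rw [if_pos hP, integral_indicator (reg_meas' v R Θ hA σ hσ hP.sub)]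
    have hle := card_le' v R Θ hA σ hσ hP.sub
    rcases hle.lt_or_eq with hlt | heq
    · rw [if_neg (fun h => by have := h.2.1; omega),
        Measure.restrict_eq_zero.2 (reg_null' v Θ hA σ hP.sub hlt), integral_zero_measure, mul_zero]
    · rw [if_pos ⟨hP.sub, by omega, hP.2⟩]
      exact hval σ hσ hP.sub (by omega)
  · rw [if_neg hP, if_neg (fun h => hP ?_)]
    refine ⟨fun j => ⟨fun hj => ?_, fun hj => hull_le v σ h.1 j hj⟩, h.2.2⟩
    exact hull_ge v R Θ hA σ hσ h.1 (by have := h.2.1; omega) j hj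

end Pool.Agent.W64.GC
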